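import Pool.Agent.Lib.MP_1b82cc_an.Defs2
import Pool.Agent.Lib.MP_1b82cc_an.GG3

/-!
The chordal form of the theorem of Mergelyan holds for every compact set with connected complement.
-/

open Set Pool.Agent.Lib.MP_1b82cc_an

theorem Pool.Agent.Results.MP_1b82cc_an.ChordalMergelyan.result
    (L : Set ℂ) (hL : IsCompact L) (hc : IsConnected Lᶜ) (f : ℂ → OnePoint ℂ) (hf : InClass L f) :
    PolyLimit L f := by
  choose p hp using fun n : ℕ => (near_all hL hc.isPreconnected hf
    (ε := 1 / ((n : ℝ) + 1) / 4) (by positivity)).poly hL hc.isPreconnected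
      Nat.one_div_pos_of_nat
  refine ⟨p, fun ε hε => ?_⟩
  obtain ⟨N, hN⟩ := exists_nat_one_div_lt hε
  exact ⟨N, fun n hn z hz => (hp n z hz).trans ((Nat.one_div_le_one_div hn).trans_lt hN)⟩
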